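import Mathlib

set_option autoImplicit false

namespace Pool.Agent.Results.MP_01f920_co.Counter

open Finset

/-- The class `X i` of the partition of `Fin n` given by the map `part`. -/
def X {n d : ℕ} (part : Fin n → Fin d) (i : Fin d) : Finset (Fin n) :=
  univ.filter (fun x => part x = i)

/-- The family of `k`-subsets meeting each class `X i` in at least `kk i` points. -/
def H {n d : ℕ} (part : Fin n → Fin d) (kk : Fin d → ℕ) (k : ℕ) : Finset (Finset (Fin n)) :=
  (powersetCard k univ).filter (fun F => ∀ i, kk i ≤ (F ∩ X part i).card)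

def p0 : Fin 17 → Fin 2 := fun x => if x.val < 9 then 0 else 1

def k0 : Fin 2 → ℕ := fun i => if i = 0 then 4 else 0

lemma cnt (s t : Finset (Fin 17)) (hst : Disjoint s t) (k : ℕ) (P : ℕ → Prop) [DecidablePred P] :
    ((powersetCard k (s ∪ t)).filter (fun F => P (F ∩ s).card)).card
      = ∑ j ∈ (range (k + 1)).filter P, s.card.choose j * t.card.choose (k - j) := by
  have h : (powersetCard k (s ∪ t)).filter (fun F => P (F ∩ s).card)
      = ((range (k + 1)).filter P).biUnion
        (fun j => (powersetCard k (s ∪ t)).filter (fun F => (F ∩ s).card = j)) := by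
    ext F
    simp only [mem_filter, mem_biUnion, mem_range, mem_powersetCard]
    constructor
    · rintro ⟨⟨h1, h2⟩, h3⟩
      refine ⟨_, ⟨?_, h3⟩, ⟨h1, h2⟩, rfl⟩
      have := card_le_card (inter_subset_left (s₁ := F) (s₂ := s))
      omega
    · rintro ⟨j, ⟨_, h3⟩, h1, rfl⟩
      exact ⟨h1, h3⟩
  rw [h, card_biUnion]
  · refine sum_congr rfl (fun j hj => ?_)
    have hjk : j ≤ k := by
      have := mem_range.1 (mem_filter.1 hj).1
      omega
    rw [← card_powersetCard, ← card_powersetCard, ← card_product]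
    refine card_nbij' (fun F => (F ∩ s, F ∩ t)) (fun q => q.1 ∪ q.2) ?_ ?_ ?_ ?_
    · intro F hF
      simp only [coe_filter, mem_powersetCard, Set.mem_ofPred_eq] at hF
      obtain ⟨⟨h1, h2⟩, h3⟩ := hF
      have hu : F = (F ∩ s) ∪ (F ∩ t) := by
        rw [← inter_union_distrib_left, inter_eq_left.2 h1]
      have hd : Disjoint (F ∩ s) (F ∩ t) := hst.mono inter_subset_right inter_subset_right
      have hc := card_union_of_disjoint hd
      rw [← hu] at hc
      simp only [coe_product, Set.mem_prod, mem_coe, mem_powersetCard]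
      exact ⟨⟨inter_subset_right, h3⟩, inter_subset_right, by omega⟩
    · intro q hq
      simp only [coe_product, Set.mem_prod, mem_coe, mem_powersetCard] at hq
      obtain ⟨⟨h1, h2⟩, h3, h4⟩ := hq
      have hd : Disjoint q.1 q.2 := hst.mono h1 h3
      have e1 : (q.1 ∪ q.2) ∩ s = q.1 := by
        rw [union_inter_distrib_right, inter_eq_left.2 h1,
          disjoint_iff_inter_eq_empty.1 (hst.symm.mono_left h3), union_empty]
      simp only [coe_filter, mem_powersetCard, Set.mem_ofPred_eq]
      refine ⟨⟨union_subset_union h1 h3, ?_⟩, by rw [e1, h2]⟩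
      rw [card_union_of_disjoint hd]
      omega
    · intro F hF
      simp only [coe_filter, mem_powersetCard, Set.mem_ofPred_eq] at hF
      show (F ∩ s) ∪ (F ∩ t) = F
      rw [← inter_union_distrib_left, inter_eq_left.2 hF.1.1]
    · intro q hq
      simp only [coe_product, Set.mem_prod, mem_coe, mem_powersetCard] at hq
      obtain ⟨⟨h1, h2⟩, h3, h4⟩ := hq
      have e1 : (q.1 ∪ q.2) ∩ s = q.1 := by
        rw [union_inter_distrib_right, inter_eq_left.2 h1,
          disjoint_iff_inter_eq_empty.1 (hst.symm.mono_left h3), union_empty]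
      have e2 : (q.1 ∪ q.2) ∩ t = q.2 := by
        rw [union_inter_distrib_right, inter_eq_left.2 h3,
          disjoint_iff_inter_eq_empty.1 (hst.mono_left h1), empty_union]
      show ((q.1 ∪ q.2) ∩ s, (q.1 ∪ q.2) ∩ t) = q
      rw [e1, e2]
  · intro i _ j _ hij
    refine disjoint_left.2 (fun F h1 h2 => hij ?_)
    rw [← (mem_filter.1 h1).2, ← (mem_filter.1 h2).2]

lemma hU : X p0 0 ∪ X p0 1 = univ := by decide
lemma hD : Disjoint (X p0 0) (X p0 1) := by decide
lemma c0 : (X p0 0).card = 9 := by decide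
lemma c1 : (X p0 1).card = 8 := by decide

lemma memH (F : Finset (Fin 17)) : F ∈ H p0 k0 8 ↔ F.card = 8 ∧ 4 ≤ (F ∩ X p0 0).card := by
  simp [H, Fin.forall_fin_two, k0]

def G0 : Finset (Finset (Fin 17)) :=
  (powersetCard 8 univ).filter (fun F => 5 ≤ (F ∩ X p0 0).card)

lemma cG : G0.card = 9705 := by
  rw [G0, ← hU, cnt _ _ hD 8 (fun j => 5 ≤ j), c0, c1]
  decide

lemma star (x : Fin 17) : ((H p0 k0 8).filter (fun F => x ∈ F)).card ≤ 9640 := by
  have hU' : (X p0 0).erase x ∪ (X p0 1).erase x = univ.erase x := by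
    rw [← erase_union_distrib, hU]
  have hD' : Disjoint ((X p0 0).erase x) ((X p0 1).erase x) :=
    hD.mono (erase_subset _ _) (erase_subset _ _)
  have key : ∀ r : ℕ, (∀ F : Finset (Fin 17), x ∈ F → 4 ≤ (F ∩ X p0 0).card →
      r ≤ (F.erase x ∩ (X p0 0).erase x).card) →
      ((H p0 k0 8).filter (fun F => x ∈ F)).card ≤
        ∑ j ∈ (range (7 + 1)).filter (fun j => r ≤ j),
          ((X p0 0).erase x).card.choose j * ((X p0 1).erase x).card.choose (7 - j) := by
    intro r hr
    rw [← cnt _ _ hD' 7 (fun j => r ≤ j), hU']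
    refine card_le_card_of_injOn (fun F => F.erase x) ?_ ?_
    · intro F hF
      have h1 := mem_filter.1 (mem_coe.1 hF)
      have h2 := (memH F).1 h1.1
      refine mem_coe.2 (mem_filter.2 ⟨mem_powersetCard.2 ⟨?_, ?_⟩, hr F h1.2 h2.2⟩)
      · exact erase_subset_erase _ (subset_univ _)
      · rw [card_erase_of_mem h1.2, h2.1]
    · intro F hF F' hF' h
      have h1 := (mem_filter.1 (mem_coe.1 hF)).2
      have h2 := (mem_filter.1 (mem_coe.1 hF')).2
      have h' : F.erase x = F'.erase x := h
      rw [← insert_erase h1, h', insert_erase h2]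
  have e : ∀ F : Finset (Fin 17), F.erase x ∩ (X p0 0).erase x = (F ∩ X p0 0).erase x := by
    intro F
    ext y
    simp only [mem_inter, mem_erase]
    tauto
  by_cases hx : x ∈ X p0 0
  · have hx' : x ∉ X p0 1 := disjoint_left.1 hD hx
    have := key 3 (fun F _ h => by
      rw [e]
      have := pred_card_le_card_erase (s := F ∩ X p0 0) (a := x)
      omega)
    rw [card_erase_of_mem hx, erase_eq_of_notMem hx', c0, c1] at this
    exact this.trans (by decide)
  · have hx' : x ∈ X p0 1 := by
      have : x ∈ X p0 0 ∪ X p0 1 := hU ▸ mem_univ x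
      exact (mem_union.1 this).resolve_left hx
    have := key 4 (fun F _ h => by
      rw [e, erase_eq_of_notMem (fun h' => hx (mem_inter.1 h').2)]
      exact h)
    rw [card_erase_of_mem hx', erase_eq_of_notMem hx, c0, c1] at this
    exact this.trans (by decide)

theorem result : ∃ (n d k : ℕ) (part : Fin n → Fin d) (kk : Fin d → ℕ),
    1 ≤ d ∧ 2 * k < n ∧ ∑ j, kk j ≤ k ∧
    (∀ i, kk i < (X part i).card) ∧
    (∀ i, 2 * kk i ≤ (X part i).card) ∧
    (∀ i, (k - ∑ j, kk j) + kk i < (X part i).card) ∧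
    ∃ G ⊆ H part kk k, (∀ A ∈ G, ∀ B ∈ G, ∃ x, x ∈ A ∧ x ∈ B) ∧
      ∀ x : Fin n, ((H part kk k).filter (fun F => x ∈ F)).card < G.card := by
  refine ⟨17, 2, 8, p0, k0, by decide, by decide, by decide, by decide, by decide, by decide,
    G0, ?_, ?_, ?_⟩
  · intro F hF
    have h := mem_filter.1 hF
    exact (memH F).2 ⟨(mem_powersetCard.1 h.1).2, by have := h.2; omega⟩
  · intro A hA B hB
    have h1 := (mem_filter.1 hA).2
    have h2 := (mem_filter.1 hB).2
    by_contra hne
    have hd : Disjoint (A ∩ X p0 0) (B ∩ X p0 0) :=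
      disjoint_left.2 (fun x hx hy => hne ⟨x, (mem_inter.1 hx).1, (mem_inter.1 hy).1⟩)
    have h3 := card_le_card (union_subset (inter_subset_right (s₁ := A) (s₂ := X p0 0))
      (inter_subset_right (s₁ := B) (s₂ := X p0 0)))
    rw [card_union_of_disjoint hd, c0] at h3
    omega
  · intro x
    have := star x
    rw [cG]
    omega

end Pool.Agent.Results.MP_01f920_co.Counter
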